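import Pool.Agent.H466.HN.Stm5

/-!
# Upper bound for the backward heat flow near a regular point
-/

set_option autoImplicit false

namespace Pool.Agent.H740.HN

open Complex MeasureTheory Set Filter Topology
open scoped ComplexConjugate
open Pool.Agent.H466.HF Pool.Agent.H466.LD Pool.Agent.H466.HP Pool.Agent.H466.HN
open Pool.Agent.H862.VK (Yz)

/-- absorbing a linear term in a Gaussian -/
lemma lin_gauss {μ p v : ℝ} (hμ : 0 < μ) :
    p * v ≤ v ^ 2 / (8 * μ) + 2 * p ^ 2 * μ := by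
  have h1 : v ^ 2 / (8 * μ) + 2 * p ^ 2 * μ - p * v = (v - 4 * μ * p) ^ 2 / (8 * μ) := by
    field_simp
    ring
  have h2 : 0 ≤ (v - 4 * μ * p) ^ 2 / (8 * μ) := by positivity
  linarith

/-- the exponent of the backward heat flow -/
lemma pf_id {μ L x : ℝ} (hμ : 0 < μ) (hL : 0 < L) :
    (x - max 0 (x - μ * L)) ^ 2 / (4 * μ) + L / 2 * max 0 (x - μ * L) =
      μ * L ^ 2 * pf (x / (μ * L)) := by
  have hΔ : 0 < μ * L := by positivity
  unfold pf
  rcases le_or_gt x (μ * L) with h | h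
  · rw [max_eq_left (by linarith), if_pos (by rw [div_le_one hΔ]; exact h)]
    field_simp
    ring
  · rw [max_eq_right (by linarith), if_neg (by rw [div_le_one hΔ]; linarith)]
    field_simp
    ring

theorem uh (h : S_BACK) : S_UH := by
  obtain ⟨A, K, μ0, Q, T00, hK46, hμ0, hT00, -, hdata⟩ := far_data
  have hK0 : 0 < K := by linarith
  set δ2 : ℝ := min (1 / 60) (min (1 / (8 * (3 + μ0))) (1 / (104 * K))) with hδ2
  have hδ2p : 0 < δ2 := by
    rw [hδ2]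
    refine lt_min (by norm_num) (lt_min ?_ ?_) <;> positivity
  have hδa : δ2 ≤ 1 / 60 := min_le_left _ _
  have hδb : δ2 ≤ 1 / (8 * (3 + μ0)) := (min_le_right _ _).trans (min_le_left _ _)
  have hδc : δ2 ≤ 1 / (104 * K) := (min_le_right _ _).trans (min_le_right _ _)
  refine ⟨δ2, 2 * K, hδ2p, by positivity, ?_⟩
  intro η hη
  refine ⟨min 1 (η / 400), lt_min one_pos (by positivity), ?_⟩
  intro κ hκ0 hκκ A1 hA1
  have hκ1 : κ ≤ 1 := hκκ.trans (min_le_left _ _)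
  have hκη : κ ≤ η / 400 := hκκ.trans (min_le_right _ _)
  refine ⟨max A1 (2 * (1 + 2 * A1) / η), max T00 (Real.exp A1), hA1.trans (le_max_left _ _),
    hT00.trans (le_max_left _ _), ?_⟩
  intro T t μ hT htT ht2 R hμ hA hδ x y hx hy
  have hTT : T00 ≤ T := (le_max_left _ _).trans hT
  have hTe : Real.exp A1 ≤ T := (le_max_right _ _).trans hT
  have hT10 : 10 ≤ T := hT00.trans hTT
  set L := Real.log T with hL
  have hL1 : A1 ≤ L := by
    rw [hL, Real.le_log_iff_exp_le (by linarith)]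
    exact hTe
  have hLp : 0 < L := by linarith
  have hL1' : 1 ≤ L := by linarith
  have hAA1 : A1 ≤ μ * L ^ 2 := (le_max_left _ _).trans hA
  have hAη : 2 * (1 + 2 * A1) ≤ η * (μ * L ^ 2) := by
    have := (le_max_right A1 (2 * (1 + 2 * A1) / η)).trans hA
    rw [div_le_iff₀ hη] at this
    linarith
  obtain ⟨-, D⟩ := hdata T t hTT htT ht2
  obtain ⟨Δ, hΔ⟩ : ∃ Δ : ℝ, Δ = μ * L := ⟨_, rfl⟩
  obtain ⟨a, ha⟩ : ∃ a : ℝ, a = μ * L ^ 2 := ⟨_, rfl⟩
  have hΔL : Δ * L = a := by rw [hΔ, ha]; ring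
  have hΔp : 0 < Δ := by rw [hΔ]; positivity
  have hap : 0 < a := by rw [ha]; positivity
  have hΔ1 : Δ ≤ δ2 := by rw [hΔ]; exact hδ
  have hΔ60 : 60 * Δ ≤ 1 := by linarith
  rw [← ha] at hAA1 hAη
  rw [← hΔ] at hy
  have hy1 : |y - t| ≤ 1 := hy.trans hΔ60
  -- the reference size
  obtain ⟨Γ, hΓ⟩ : ∃ Γ : ℝ, Γ = Gm T t μ := ⟨_, rfl⟩
  have hΓ' : Γ = ‖LL gk 0 ((Δ : ℂ) + (t : ℂ) * I)‖ * Real.exp (-(L / 2 * Δ)) := by
    rw [hΓ, Gm, ← hL, ← hΔ, ← ha, ← hΔL]
    congr 3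
    ring
  have hbase : ‖LL gk 0 ((Δ : ℂ) + (t : ℂ) * I)‖ = Γ * Real.exp (L / 2 * Δ) := by
    rw [hΓ', mul_assoc, ← Real.exp_add, neg_add_cancel, Real.exp_zero, mul_one]
  have hy0X : A1 / L ≤ Δ := by
    rw [div_le_iff₀ hLp, hΔL]
    exact hAA1
  have hy01 : A1 / L ≤ 1 := by rw [div_le_one hLp]; exact hL1
  have hM1 : 1 ≤ 1 / κ := by rw [le_div_iff₀ hκ0]; linarith
  have hlow := base_low (X1 := Δ) hT10 (by linarith) hy01 hM1 hκ0 R D hy0X (by linarith)
  rw [← hL, ← hΓ'] at hlow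
  have hΓtp : 0 < ‖gz ((t : ℂ) * I)‖ := D.Γpos
  have hΓp : 0 < Γ := lt_of_lt_of_le (by positivity) hlow
  have hΓt : ‖gz ((t : ℂ) * I)‖ ≤ Γ * Real.exp (10 * K + 3 * (κ * L)) := by
    have h3 := mul_le_mul_of_nonneg_right hlow (Real.exp_pos (10 * K + 3 * (κ * L))).le
    rw [mul_assoc, ← Real.exp_add, neg_add_cancel, Real.exp_zero, mul_one] at h3
    exact h3
  -- the shifted point
  obtain ⟨x', hx'⟩ : ∃ x' : ℝ, x' = max 0 (x - Δ) := ⟨_, rfl⟩
  have hx'0 : 0 ≤ x' := by rw [hx']; exact le_max_left _ _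
  have hx'x : x' ≤ x := by rw [hx']; exact max_le hx (by linarith)
  have hx'sq : x' ^ 2 ≤ x ^ 2 := pow_le_pow_left₀ hx'0 hx'x 2
  have hS := sqrt_pos' hμ
  have hpf := pf_id (x := x) hμ hLp
  rw [← hΔ, ← ha, ← hx'] at hpf
  -- smallness of `μ`
  have hμΔ : μ ≤ Δ := by rw [hΔ]; nlinarith
  have h104 : 104 * K * Δ ≤ 1 := by
    have h1 := hΔ1.trans hδc
    rw [le_div_iff₀ (by positivity)] at h1
    linarith
  have h8 : 8 * (3 + μ0) * Δ ≤ 1 := by
    have h1 := hΔ1.trans hδb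
    rw [le_div_iff₀ (by positivity)] at h1
    linarith
  have h104μ : 104 * K * μ ≤ 1 := by
    have : 104 * K * μ ≤ 104 * K * Δ := mul_le_mul_of_nonneg_left hμΔ (by positivity)
    linarith
  set Qe : ℝ := L / 2 * x' + κ * L * (x' + Δ) + 2 * A1 + 180 * (κ * a) + 18 * (κ ^ 2 * a) +
    2 * K * x' ^ 2 with hQe
  have hbound : ∀ v : ℝ, ‖LL gk 0 ((x' : ℂ) + (y : ℂ) * I + v * I)‖ * Real.exp (-v ^ 2 / (4 * μ)) ≤
      Γ * Real.exp Qe * Real.exp (-v ^ 2 / (8 * μ)) := by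
    intro v
    have hv0 := abs_nonneg v
    have hvs : |v| ^ 2 = v ^ 2 := sq_abs v
    have ev : (x' : ℂ) + (y : ℂ) * I + v * I =
        (x' : ℂ) + ((t + (y - t + v) : ℝ) : ℂ) * I := by push_cast; ring
    have hvt : |y - t + v| ≤ |y - t| + |v| := abs_add_le _ _
    have esplit : -v ^ 2 / (4 * μ) = -(v ^ 2 / (8 * μ)) + -v ^ 2 / (8 * μ) := by
      field_simp
      ring
    rw [ev]
    rcases le_or_gt |v| 2 with hv | hv
    · have h1 := ustar mono (X1 := Δ) hT10 (by linarith) hy01 hM1 hκ0 hκ1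
        (by rw [mul_one_div, div_self hκ0.ne']) R D hy0X (by linarith) hx'0
        (v := y - t + v) (by linarith)
      rw [← hL, hbase, mul_assoc, ← Real.exp_add] at h1
      refine (mul_le_mul_of_nonneg_right h1 (Real.exp_pos _).le).trans ?_
      rw [mul_assoc Γ, mul_assoc Γ, ← Real.exp_add, ← Real.exp_add]
      apply mul_le_mul_of_nonneg_left _ hΓp.le
      apply Real.exp_le_exp.mpr
      have h2 : 3 * κ * L * |y - t + v| ≤ 3 * κ * L * (60 * Δ + |v|) :=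
        mul_le_mul_of_nonneg_left (by linarith) (by positivity)
      have h3 := lin_gauss (μ := μ) (p := 3 * κ * L) (v := |v|) hμ
      rw [hvs] at h3
      have h4 : 2 * (3 * κ * L) ^ 2 * μ = 18 * (κ ^ 2 * a) := by rw [ha]; ring
      have h5 : 3 * κ * L * (60 * Δ) = 180 * (κ * a) := by rw [← hΔL]; ring
      rw [esplit, hQe]
      rw [mul_add, h5] at h2
      rw [h4] at h3
      linarith
    · have h1 := D.up ((x' : ℂ) + ((t + (y - t + v) : ℝ) : ℂ) * I)
      have e1 : ((x' : ℂ) + ((t + (y - t + v) : ℝ) : ℂ) * I).re = x' := by simp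
      have e2 : ((x' : ℂ) + ((t + (y - t + v) : ℝ) : ℂ) * I).im - t = y - t + v := by simp
      rw [e1, e2, abs_of_nonneg hx'0] at h1
      have h2 := h1.trans (mul_le_mul_of_nonneg_right hΓt (Real.exp_pos _).le)
      refine (mul_le_mul_of_nonneg_right h2 (Real.exp_pos _).le).trans ?_
      rw [mul_assoc Γ, mul_assoc Γ, mul_assoc Γ, ← Real.exp_add, ← Real.exp_add, ← Real.exp_add]
      apply mul_le_mul_of_nonneg_left _ hΓp.le
      apply Real.exp_le_exp.mpr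
      have h3 : (y - t + v) ^ 2 ≤ 2 + 2 * v ^ 2 := by
        rw [← sq_abs (y - t + v), ← hvs]
        have : |y - t + v| ≤ 1 + |v| := by linarith
        nlinarith [abs_nonneg (y - t + v), sq_nonneg (|v| - 1)]
      have h4 : K * (1 + x' ^ 2 + (y - t + v) ^ 2) ≤ K * (1 + x' ^ 2 + (2 + 2 * v ^ 2)) :=
        mul_le_mul_of_nonneg_left (by linarith) hK0.le
      have hv4 : 4 ≤ v ^ 2 := by
        rw [← hvs]
        nlinarith
      have h5 : 13 * K + (3 * κ + μ0 / 2) * L + 2 * K * v ^ 2 ≤ v ^ 2 / (8 * μ) := by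
        rw [le_div_iff₀ (by positivity)]
        have a1 : (3 * κ + μ0 / 2) * L * (8 * μ) ≤ 8 * (3 + μ0) * Δ := by
          have : (3 * κ + μ0 / 2) * L * (8 * μ) = 8 * (3 * κ + μ0 / 2) * Δ := by rw [hΔ]; ring
          rw [this]
          apply mul_le_mul_of_nonneg_right _ hΔp.le
          linarith
        have a2 : 13 * K * (8 * μ) ≤ 1 := by linarith
        have a3 : 2 * K * v ^ 2 * (8 * μ) = 16 / 104 * (104 * K * μ) * v ^ 2 := by ring
        have a4 : 16 / 104 * (104 * K * μ) * v ^ 2 ≤ 16 / 104 * 1 * v ^ 2 := by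
          apply mul_le_mul_of_nonneg_right _ (by positivity)
          linarith
        have a5 : (13 * K + (3 * κ + μ0 / 2) * L + 2 * K * v ^ 2) * (8 * μ) =
          13 * K * (8 * μ) + (3 * κ + μ0 / 2) * L * (8 * μ) + 2 * K * v ^ 2 * (8 * μ) := by ring
        rw [a5, a3]
        linarith
      rw [esplit, hQe]
      have h6 : 0 ≤ κ * L * (x' + Δ) := by positivity
      have h7 : 0 ≤ 180 * (κ * a) := by positivity
      have h8' : 0 ≤ 18 * (κ ^ 2 * a) := by positivity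
      have h9 : 0 ≤ K * x' ^ 2 := by positivity
      linarith
  have i8 : Integrable (fun v : ℝ => Real.exp (-v ^ 2 / (8 * μ))) :=
    ga_integrable (k := 8 * μ) (by positivity)
  have v8 : ∫ v : ℝ, Real.exp (-v ^ 2 / (8 * μ)) ≤ 2 * Real.sqrt (Real.pi * (4 * μ)) := by
    have h1 := ga_integral (k := 8 * μ) (by positivity)
    unfold ga at h1
    rw [h1, show Real.pi * (8 * μ) = 2 * (Real.pi * (4 * μ)) by ring,
      Real.sqrt_mul (by norm_num)]
    apply mul_le_mul_of_nonneg_right _ hS.le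
    rw [Real.sqrt_le_left (by norm_num)]
    norm_num
  have h1 := h μ hμ ((x' : ℂ) + (y : ℂ) * I) (x - x')
  have ex : (x' : ℂ) + (y : ℂ) * I + ((x - x' : ℝ) : ℂ) = (x : ℂ) + (y : ℂ) * I := by
    push_cast; ring
  rw [ex] at h1
  have h2 : ∫ v : ℝ, ‖LL gk 0 ((x' : ℂ) + (y : ℂ) * I + v * I)‖ * Real.exp (-v ^ 2 / (4 * μ)) ≤
      ∫ v : ℝ, Γ * Real.exp Qe * Real.exp (-v ^ 2 / (8 * μ)) :=
    integral_mono_of_nonneg (Eventually.of_forall fun v => by positivity) (i8.const_mul _)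
      (Eventually.of_forall hbound)
  rw [integral_const_mul] at h2
  have h3 : Real.sqrt (Real.pi * (4 * μ)) * Real.exp (-((x - x') ^ 2 / (4 * μ))) *
      ‖LL gk (-μ) ((x : ℂ) + (y : ℂ) * I)‖ ≤
      Γ * Real.exp Qe * (2 * Real.sqrt (Real.pi * (4 * μ))) :=
    h1.trans (h2.trans (mul_le_mul_of_nonneg_left v8 (by positivity)))
  have h4 : ‖LL gk (-μ) ((x : ℂ) + (y : ℂ) * I)‖ ≤
      2 * Γ * Real.exp (Qe + (x - x') ^ 2 / (4 * μ)) := by
    have h5 := mul_le_mul_of_nonneg_right h3 (Real.exp_pos ((x - x') ^ 2 / (4 * μ))).le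
    have e5 : Real.sqrt (Real.pi * (4 * μ)) * Real.exp (-((x - x') ^ 2 / (4 * μ))) *
        ‖LL gk (-μ) ((x : ℂ) + (y : ℂ) * I)‖ * Real.exp ((x - x') ^ 2 / (4 * μ)) =
        Real.sqrt (Real.pi * (4 * μ)) * ‖LL gk (-μ) ((x : ℂ) + (y : ℂ) * I)‖ := by
      have : Real.exp (-((x - x') ^ 2 / (4 * μ))) * Real.exp ((x - x') ^ 2 / (4 * μ)) = 1 := by
        rw [← Real.exp_add, neg_add_cancel, Real.exp_zero]
      linear_combination (Real.sqrt (Real.pi * (4 * μ)) *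
        ‖LL gk (-μ) ((x : ℂ) + (y : ℂ) * I)‖) * this
    have e6 : Γ * Real.exp Qe * (2 * Real.sqrt (Real.pi * (4 * μ))) *
        Real.exp ((x - x') ^ 2 / (4 * μ)) = Real.sqrt (Real.pi * (4 * μ)) *
        (2 * Γ * Real.exp (Qe + (x - x') ^ 2 / (4 * μ))) := by
      rw [Real.exp_add Qe]
      generalize Real.exp Qe = e1
      generalize Real.exp ((x - x') ^ 2 / (4 * μ)) = e2
      ring
    rw [e5, e6] at h5
    exact le_of_mul_le_mul_left h5 hS
  rw [← hΓ, ← hΔ, ← ha]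
  refine h4.trans ?_
  have h6 : 2 * Γ * Real.exp (Qe + (x - x') ^ 2 / (4 * μ)) ≤
      Γ * Real.exp (1 + (Qe + (x - x') ^ 2 / (4 * μ))) := by
    have h7 : (2 : ℝ) ≤ Real.exp 1 := by linarith [Real.add_one_le_exp (1 : ℝ)]
    rw [Real.exp_add 1]
    have h8' : 0 ≤ Γ * Real.exp (Qe + (x - x') ^ 2 / (4 * μ)) := by positivity
    have h9 := mul_le_mul_of_nonneg_left h7 h8'
    linarith
  refine h6.trans (mul_le_mul_of_nonneg_left (Real.exp_le_exp.mpr ?_) hΓp.le)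
  rw [← hpf, hQe]
  have g1 : κ * L * (x' + Δ) ≤ κ * (L * x) + κ * a := by
    rw [← hΔL]
    have : κ * L * x' ≤ κ * L * x := mul_le_mul_of_nonneg_left hx'x (by positivity)
    nlinarith
  have g2 : 18 * (κ ^ 2 * a) ≤ 18 * (κ * a) := by
    have : κ ^ 2 * a ≤ κ * a := by
      apply mul_le_mul_of_nonneg_right _ hap.le
      nlinarith
    linarith
  have g3 : κ * a ≤ η / 400 * a := mul_le_mul_of_nonneg_right hκη hap.le
  have hLx : 0 ≤ L * x := by positivity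
  have g4 : κ * (L * x) ≤ η / 400 * (L * x) := mul_le_mul_of_nonneg_right hκη hLx
  have g5 : 2 * K * x' ^ 2 ≤ 2 * K * x ^ 2 := mul_le_mul_of_nonneg_left hx'sq (by positivity)
  have g6 : 0 ≤ η * (L * x) := by positivity
  have g7 : 0 ≤ η * a := by positivity
  linarith

end Pool.Agent.H740.HN
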